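import Pool.Agent.Helper55.ZB.ZTP

/-!
Sheet ZB (MP_7a8f48_an), row ZCS: the inequality of Cauchy and Schwarz.
-/

open MeasureTheory Filter Topology Finset
open scoped ComplexConjugate

namespace Pool.Agent.Helper55.ZB

open Pool.Agent.Helper98.TW (SA jo bo cm AM UF BF Sys Lm IA LQ Inc sg Grp)
open Pool.Agent.Helper98.ZA (pr)
open Pool.Agent.Helper98.ZB
open Pool.Agent.Helper16.AZ (E Op)
open Pool.Agent.Helper16.BZ (Wk EE)

theorem in_eq {d : ℕ} (a x : E d) : (inner ℂ a x : ℂ) = ∑ i, x i * (starRingEnd ℂ) (a i) := by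
  simp [PiLp.inner_apply]

/-- the square of the norm of Hilbert and Schmidt -/
theorem cs_alg {d : ℕ} (H : ℕ) (a b : ℕ → E d) :
    (∑ h ∈ range H, ∑ h' ∈ range H, (inner ℂ (a h) (a h') : ℂ) *
      conj (inner ℂ (b h) (b h') : ℂ)) =
    ((∑ p : Fin d × Fin d, ‖∑ h ∈ range H, (starRingEnd ℂ) (a h p.1) * b h p.2‖ ^ 2 : ℝ) : ℂ) := by
  have e1 : ∀ h h' : ℕ, (inner ℂ (a h) (a h') : ℂ) * conj (inner ℂ (b h) (b h') : ℂ) =
      ∑ p : Fin d × Fin d, (a h' p.1 * (starRingEnd ℂ) (a h p.1)) * (starRingEnd ℂ) (b h' p.2 * (starRingEnd ℂ) (b h p.2)) := by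
    intro h h'
    rw [in_eq, in_eq, map_sum, Finset.sum_mul_sum, Fintype.sum_prod_type]
  have e2 : ∀ p : Fin d × Fin d,
      (((‖∑ h ∈ range H, (starRingEnd ℂ) (a h p.1) * b h p.2‖ ^ 2 : ℝ)) : ℂ) =
      ∑ h ∈ range H, ∑ h' ∈ range H,
        (a h' p.1 * (starRingEnd ℂ) (a h p.1)) * (starRingEnd ℂ) (b h' p.2 * (starRingEnd ℂ) (b h p.2)) := by
    intro p
    rw [Complex.ofReal_pow, ← Complex.mul_conj', map_sum, Finset.sum_mul_sum]
    refine Finset.sum_congr rfl fun h _ => Finset.sum_congr rfl fun h' _ => ?_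
    simp only [map_mul, Complex.conj_conj]
    ring
  rw [Complex.ofReal_sum, Finset.sum_congr rfl fun p _ => e2 p]
  refine Eq.trans ?_ Finset.sum_comm
  refine Finset.sum_congr rfl fun h _ => ?_
  refine Eq.trans ?_ Finset.sum_comm
  exact Finset.sum_congr rfl fun h' _ => e1 h h'

/-- the inequality for vectors -/
theorem cs_vec {d : ℕ} (H : ℕ) (a b : ℕ → E d) (x y : E d) (hx : ‖x‖ ≤ 1) (hy : ‖y‖ ≤ 1) :
    ‖∑ h ∈ range H, (inner ℂ (a h) x : ℂ) * conj (inner ℂ (b h) y : ℂ)‖ ^ 2 ≤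
    ∑ p : Fin d × Fin d, ‖∑ h ∈ range H, (starRingEnd ℂ) (a h p.1) * b h p.2‖ ^ 2 := by
  have e1 : ∑ h ∈ range H, (inner ℂ (a h) x : ℂ) * conj (inner ℂ (b h) y : ℂ) =
      ∑ p : Fin d × Fin d, (∑ h ∈ range H, (starRingEnd ℂ) (a h p.1) * b h p.2) * (x p.1 * (starRingEnd ℂ) (y p.2)) := by
    have : ∀ p : Fin d × Fin d, (∑ h ∈ range H, (starRingEnd ℂ) (a h p.1) * b h p.2) *
        (x p.1 * (starRingEnd ℂ) (y p.2)) =
        ∑ h ∈ range H, (x p.1 * (starRingEnd ℂ) (a h p.1)) * (starRingEnd ℂ) (y p.2 * (starRingEnd ℂ) (b h p.2)) := by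
      intro p
      rw [Finset.sum_mul]
      refine Finset.sum_congr rfl fun h _ => ?_
      rw [map_mul, Complex.conj_conj]
      ring
    rw [Finset.sum_congr rfl fun p _ => this p, Finset.sum_comm]
    refine Finset.sum_congr rfl fun h _ => ?_
    rw [in_eq, in_eq, map_sum, Finset.sum_mul_sum, Fintype.sum_prod_type]
  rw [e1]
  have e2 : ‖∑ p : Fin d × Fin d, (∑ h ∈ range H, (starRingEnd ℂ) (a h p.1) * b h p.2) *
      (x p.1 * (starRingEnd ℂ) (y p.2))‖ ≤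
      ∑ p : Fin d × Fin d, ‖∑ h ∈ range H, (starRingEnd ℂ) (a h p.1) * b h p.2‖ * (‖x p.1‖ * ‖y p.2‖) := by
    refine (norm_sum_le _ _).trans (Finset.sum_le_sum fun p _ => ?_)
    rw [norm_mul, norm_mul, RCLike.norm_conj]
  have e3 := Finset.sum_mul_sq_le_sq_mul_sq Finset.univ
    (fun p : Fin d × Fin d => ‖∑ h ∈ range H, (starRingEnd ℂ) (a h p.1) * b h p.2‖)
    (fun p : Fin d × Fin d => ‖x p.1‖ * ‖y p.2‖)
  have e4 : ∑ p : Fin d × Fin d, (‖x p.1‖ * ‖y p.2‖) ^ 2 = ‖x‖ ^ 2 * ‖y‖ ^ 2 := by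
    rw [EuclideanSpace.norm_sq_eq, EuclideanSpace.norm_sq_eq, Finset.sum_mul_sum,
      Fintype.sum_prod_type]
    refine Finset.sum_congr rfl fun i _ => Finset.sum_congr rfl fun j _ => ?_
    rw [mul_pow]
  have e5 : ‖x‖ ^ 2 * ‖y‖ ^ 2 ≤ 1 := by
    have h1 : ‖x‖ ^ 2 ≤ 1 := pow_le_one₀ (norm_nonneg _) hx
    have h2 : ‖y‖ ^ 2 ≤ 1 := pow_le_one₀ (norm_nonneg _) hy
    exact mul_le_one₀ h1 (by positivity) h2
  calc _ ≤ (∑ p : Fin d × Fin d, ‖∑ h ∈ range H, (starRingEnd ℂ) (a h p.1) * b h p.2‖ *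
      (‖x p.1‖ * ‖y p.2‖)) ^ 2 := pow_le_pow_left₀ (norm_nonneg _) e2 2
    _ ≤ _ := e3
    _ ≤ _ := by
      rw [e4]
      have h0 : 0 ≤ ∑ p : Fin d × Fin d, ‖∑ h ∈ range H, (starRingEnd ℂ) (a h p.1) * b h p.2‖ ^ 2 :=
        Finset.sum_nonneg fun p _ => by positivity
      exact mul_le_of_le_one_right h0 e5

theorem pr_meas {Y : Type} [MeasurableSpace Y] {ν : Measure Y} {S : Y → Y} {u : ℕ → Y → ℂ}
    (h : Tw ν S u) (k : ℕ) : Measurable (pr u k) := by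
  refine measurable_pi_lambda _ fun i => ?_
  exact h.meas i

/-- ZCS: the inequality of Cauchy and Schwarz. -/
theorem st_ZCS : ST_ZCS := by
  intro Y _ ν _ S u k d φ e R c hS hT hE hR hpr hc hcb P Q κ _ hκ h1 h2 H
  obtain ⟨b, hb⟩ := hcb
  have hpm : Measurable (pr u k) := pr_meas hT k
  -- the iterates
  have hit : ∀ n : ℕ, ∀ᵐ y ∂ν, pr u k (S^[n] y) = R^[n] (pr u k y) ∧
      e (S^[n] y) = Pool.Agent.Helper16.BZ.co R φ n (pr u k y) (e y) := by
    intro n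
    induction n with
    | zero => exact Eventually.of_forall fun y => ⟨rfl, rfl⟩
    | succ n ih =>
      have q1 := (hS.iterate n).quasiMeasurePreserving.ae hpr
      have q2 := (hS.iterate n).quasiMeasurePreserving.ae hE.eqv
      filter_upwards [ih, q1, q2] with y h3 h4 h5
      rw [Function.iterate_succ_apply' S, Function.iterate_succ_apply' R, h4, h5, h3.1, h3.2,
        Pool.Agent.Helper16.BZ.co_succ]
      exact ⟨rfl, rfl⟩
  have t1 : ∀ {p : Y → Prop}, (∀ᵐ x ∂ν, p x) → ∀ᵐ z ∂κ, p z.1 := by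
    intro p hP
    exact ae_of_ae_map measurable_fst.aemeasurable (h1.ae_le hP)
  have t2 : ∀ {p : Y → Prop}, (∀ᵐ x ∂ν, p x) → ∀ᵐ z ∂κ, p z.2 := by
    intro p hP
    exact ae_of_ae_map measurable_snd.aemeasurable (h2.ae_le hP)
  obtain ⟨F, hF⟩ : ∃ F : Y → ℂ, F = fun y => (inner ℂ (c (pr u k y)) (e y) : ℂ) := ⟨_, rfl⟩
  have hFm : Measurable F := by
    rw [hF]
    exact (hc.measurable.comp hpm).inner hE.meas
  -- the coefficient along the orbit
  have hFn : ∀ n : ℕ, ∀ᵐ y ∂ν, F (S^[n] y) =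
      (inner ℂ (Wk R φ n c (pr u k y)) (e y) : ℂ) := by
    intro n
    filter_upwards [hit n] with y hy
    rw [hF]
    show (inner ℂ (c (pr u k (S^[n] y))) (e (S^[n] y)) : ℂ) = _
    rw [hy.1, hy.2, Wk, ContinuousLinearMap.star_eq_adjoint,
      ContinuousLinearMap.adjoint_inner_left]
  have hiter : ∀ (h : ℕ) (z : Y × Y), (Prod.map S^[P] S^[Q])^[h] z =
      (S^[P * h] z.1, S^[Q * h] z.2) := by
    intro h z
    rw [Prod.map_iterate, Function.iterate_mul, Function.iterate_mul]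
    rfl
  obtain ⟨f, hf⟩ : ∃ f : Y × Y → ℂ, f = fun z => F z.1 * conj (F z.2) := ⟨_, rfl⟩
  have hfm : Measurable f := by
    rw [hf]
    exact (hFm.comp measurable_fst).mul
      (Complex.continuous_conj.measurable.comp (hFm.comp measurable_snd))
  have hinv : ∀ h : ℕ, ∫ z, f ((Prod.map S^[P] S^[Q])^[h] z) ∂κ = ∫ z, f z ∂κ := by
    intro h
    have q := hκ.iterate h
    rw [← integral_map q.measurable.aemeasurable hfm.aestronglyMeasurable, q.map_eq]
  have hFb : ∀ y, ‖F y‖ ≤ b := by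
    intro y
    rw [hF]
    refine (norm_inner_le_norm _ _).trans ?_
    exact (mul_le_of_le_one_right (norm_nonneg _) (hE.le y)).trans (hb _)
  have hb0 : 0 ≤ b := (norm_nonneg _).trans (hb 0)
  have hfb : ∀ z, ‖f z‖ ≤ b * b := by
    intro z
    rw [hf]
    show ‖F z.1 * conj (F z.2)‖ ≤ _
    rw [norm_mul, RCLike.norm_conj]
    exact mul_le_mul (hFb _) (hFb _) (norm_nonneg _) hb0
  have hfi : ∀ h : ℕ, Integrable (fun z => f ((Prod.map S^[P] S^[Q])^[h] z)) κ := by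
    intro h
    refine Integrable.of_bound (hfm.comp (hκ.iterate h).measurable).aestronglyMeasurable (b * b)
      (Eventually.of_forall fun z => hfb _)
  -- the vectors
  obtain ⟨A, hA⟩ : ∃ A : ℕ → Y × Y → E d, A = fun h z => Wk R φ (P * h) c (pr u k z.1) :=
    ⟨_, rfl⟩
  obtain ⟨B, hB⟩ : ∃ B : ℕ → Y × Y → E d, B = fun h z => Wk R φ (Q * h) c (pr u k z.2) :=
    ⟨_, rfl⟩
  have hfe : ∀ h : ℕ, ∀ᵐ z ∂κ, f ((Prod.map S^[P] S^[Q])^[h] z) =
      (inner ℂ (A h z) (e z.1) : ℂ) * conj (inner ℂ (B h z) (e z.2) : ℂ) := by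
    intro h
    filter_upwards [t1 (hFn (P * h)), t2 (hFn (Q * h))] with z z1 z2
    rw [hiter, hf, hA, hB]
    show F (S^[P * h] z.1) * conj (F (S^[Q * h] z.2)) = _
    rw [z1, z2]
  have hsum : (H : ℂ) * ∫ z, f z ∂κ = ∫ z, ∑ h ∈ range H,
      (inner ℂ (A h z) (e z.1) : ℂ) * conj (inner ℂ (B h z) (e z.2) : ℂ) ∂κ := by
    have q1 : (H : ℂ) * ∫ z, f z ∂κ = ∑ h ∈ range H,
        ∫ z, f ((Prod.map S^[P] S^[Q])^[h] z) ∂κ := by
      rw [Finset.sum_congr rfl fun h _ => hinv h, Finset.sum_const, Finset.card_range,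
        nsmul_eq_mul]
    rw [q1, ← integral_finsetSum _ fun h _ => hfi h]
    refine integral_congr_ae ?_
    have q2 : ∀ᵐ z ∂κ, ∀ h : ℕ, f ((Prod.map S^[P] S^[Q])^[h] z) =
      (inner ℂ (A h z) (e z.1) : ℂ) * conj (inner ℂ (B h z) (e z.2) : ℂ) := ae_all_iff.2 hfe
    filter_upwards [q2] with z hz
    exact Finset.sum_congr rfl fun h _ => hz h
  obtain ⟨g, hg⟩ : ∃ g : Y × Y → ℂ, g = fun z => ∑ h ∈ range H,
      (inner ℂ (A h z) (e z.1) : ℂ) * conj (inner ℂ (B h z) (e z.2) : ℂ) := ⟨_, rfl⟩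
  obtain ⟨G, hG⟩ : ∃ G : Y × Y → ℝ, G = fun z => ∑ p : Fin d × Fin d,
      ‖∑ h ∈ range H, (starRingEnd ℂ) (A h z p.1) * B h z p.2‖ ^ 2 := ⟨_, rfl⟩
  have hgG : ∀ z, ‖g z‖ ^ 2 ≤ G z := by
    intro z
    rw [hg, hG]
    exact cs_vec H (fun h => A h z) (fun h => B h z) (e z.1) (e z.2) (hE.le _) (hE.le _)
  have hG0 : ∀ z, 0 ≤ G z := fun z => (by positivity : (0 : ℝ) ≤ ‖g z‖ ^ 2).trans (hgG z)
  -- the sections are bounded and measurable
  have hwm : ∀ n : ℕ, StronglyMeasurable (Wk R φ n c) := fun n => wk_sm hR hE.ms hc n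
  have hwb : ∀ (n : ℕ) (w : Fin k → ℂ), ‖Wk R φ n c w‖ ≤ b := by
    intro n w
    rw [Wk, Pool.Agent.Helper16.AZ.unitary_norm (Unitary.star_mem (bco_uni hE.uni n w))]
    exact hb _
  have hAm : ∀ h, Measurable (A h) := by
    intro h
    rw [hA]
    exact (hwm (P * h)).measurable.comp (hpm.comp measurable_fst)
  have hBm : ∀ h, Measurable (B h) := by
    intro h
    rw [hB]
    exact (hwm (Q * h)).measurable.comp (hpm.comp measurable_snd)
  have hEm : ∀ n n' : ℕ, StronglyMeasurable (EE R φ c n n') := fun n n' =>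
    ee_sm hR hE.ms hc n n'
  have hGe : ∀ z, ((G z : ℝ) : ℂ) = ∑ h ∈ range H, ∑ h' ∈ range H,
      EE R φ c (P * h) (P * h') (pr u k z.1) *
        conj (EE R φ c (Q * h) (Q * h') (pr u k z.2)) := by
    intro z
    rw [hG]
    have q := cs_alg H (fun h => A h z) (fun h => B h z)
    rw [hA, hB] at q ⊢
    exact q.symm
  have hmap : Measurable (Prod.map (pr u k) (pr u k)) := hpm.prodMap hpm
  have hsm : ∀ h h' : ℕ, StronglyMeasurable (fun w : (Fin k → ℂ) × (Fin k → ℂ) =>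
      EE R φ c (P * h) (P * h') w.1 * conj (EE R φ c (Q * h) (Q * h') w.2)) := by
    intro h h'
    have a1 := (hEm (P * h) (P * h')).comp_measurable
      (measurable_fst : Measurable (Prod.fst : (Fin k → ℂ) × (Fin k → ℂ) → _))
    have a2 := (hEm (Q * h) (Q * h')).comp_measurable
      (measurable_snd : Measurable (Prod.snd : (Fin k → ℂ) × (Fin k → ℂ) → _))
    exact a1.mul (Complex.continuous_conj.comp_stronglyMeasurable a2)
  have hEb : ∀ (n n' : ℕ) (w : Fin k → ℂ), ‖EE R φ c n n' w‖ ≤ b * b := by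
    intro n n' w
    rw [EE]
    exact (norm_inner_le_norm _ _).trans
      (mul_le_mul (hwb n w) (hwb n' w) (norm_nonneg _) hb0)
  have hint : ∀ h h' : ℕ, Integrable (fun z : Y × Y =>
      EE R φ c (P * h) (P * h') (pr u k z.1) *
        conj (EE R φ c (Q * h) (Q * h') (pr u k z.2))) κ := by
    intro h h'
    refine Integrable.of_bound ((hsm h h').comp_measurable hmap).aestronglyMeasurable
      ((b * b) * (b * b)) (Eventually.of_forall fun z => ?_)
    show ‖EE R φ c (P * h) (P * h') (pr u k z.1) *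
        conj (EE R φ c (Q * h) (Q * h') (pr u k z.2))‖ ≤ _
    rw [norm_mul, RCLike.norm_conj]
    exact mul_le_mul (hEb _ _ _) (hEb _ _ _) (norm_nonneg _) (by positivity)
  have hGi : Integrable (fun z => ((G z : ℝ) : ℂ)) κ := by
    have q : (fun z => ((G z : ℝ) : ℂ)) = fun z => ∑ h ∈ range H, ∑ h' ∈ range H,
      EE R φ c (P * h) (P * h') (pr u k z.1) *
        conj (EE R φ c (Q * h) (Q * h') (pr u k z.2)) := funext hGe
    rw [q]
    exact integrable_finsetSum _ fun h _ => integrable_finsetSum _ fun h' _ => hint h h'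
  have hGr : Integrable G κ := by
    have q := hGi.re
    exact q
  have hrhs : (∑ h ∈ range H, ∑ h' ∈ range H, ∫ z, EE R φ c (P * h) (P * h') z.1 *
      conj (EE R φ c (Q * h) (Q * h') z.2) ∂(κ.map (Prod.map (pr u k) (pr u k)))) =
      ((∫ z, G z ∂κ : ℝ) : ℂ) := by
    have q0 : ((∫ z, G z ∂κ : ℝ) : ℂ) = ∫ z, ((G z : ℝ) : ℂ) ∂κ := integral_ofReal.symm
    rw [q0]
    have q : (∫ z, ((G z : ℝ) : ℂ) ∂κ) = ∫ z, ∑ h ∈ range H, ∑ h' ∈ range H,
      EE R φ c (P * h) (P * h') (pr u k z.1) *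
        conj (EE R φ c (Q * h) (Q * h') (pr u k z.2)) ∂κ :=
      integral_congr_ae (Eventually.of_forall hGe)
    refine Eq.trans ?_ q.symm
    rw [integral_finsetSum _ fun h _ => integrable_finsetSum _ fun h' _ => hint h h']
    refine Finset.sum_congr rfl fun h _ => ?_
    rw [integral_finsetSum _ fun h' _ => hint h h']
    refine Finset.sum_congr rfl fun h' _ => ?_
    rw [integral_map hmap.aemeasurable (hsm h h').aestronglyMeasurable]
    rfl
  have hgm : AEStronglyMeasurable g κ := by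
    rw [hg]
    refine (Measurable.aestronglyMeasurable ?_)
    refine Finset.measurable_sum _ fun h _ => ?_
    exact ((hAm h).inner (hE.meas.comp measurable_fst)).mul
      (Complex.continuous_conj.measurable.comp
        ((hBm h).inner (hE.meas.comp measurable_snd)))
  -- the integral
  have hg2 : Integrable (fun z => ‖g z‖ ^ 2) κ := by
    refine hGr.mono' (hgm.norm.pow 2) (Eventually.of_forall fun z => ?_)
    rw [Real.norm_of_nonneg (by positivity)]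
    exact hgG z
  have hg1 : Integrable (fun z => ‖g z‖) κ := by
    refine (hg2.add (integrable_const (1 : ℝ))).mono' hgm.norm
      (Eventually.of_forall fun z => ?_)
    rw [norm_norm]
    show ‖g z‖ ≤ ‖g z‖ ^ 2 + 1
    nlinarith [sq_nonneg (‖g z‖ - 1), norm_nonneg (g z)]
  have hcs : (∫ z, ‖g z‖ ∂κ) ^ 2 ≤ ∫ z, ‖g z‖ ^ 2 ∂κ := by
    obtain ⟨m, hm⟩ : ∃ m : ℝ, m = ∫ z, ‖g z‖ ∂κ := ⟨_, rfl⟩
    have q1 : 0 ≤ ∫ z, (‖g z‖ - m) ^ 2 ∂κ := integral_nonneg fun z => by positivity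
    have q2 : ∫ z, (‖g z‖ - m) ^ 2 ∂κ = (∫ z, ‖g z‖ ^ 2 ∂κ) - 2 * m * (∫ z, ‖g z‖ ∂κ) +
        m ^ 2 := by
      have q3 : (fun z => (‖g z‖ - m) ^ 2) = fun z => ‖g z‖ ^ 2 - 2 * m * ‖g z‖ + m ^ 2 := by
        funext z
        ring
      have i1 : Integrable (fun z => ‖g z‖ ^ 2 - 2 * m * ‖g z‖) κ :=
        hg2.sub (hg1.const_mul (2 * m))
      rw [q3, integral_add i1 (integrable_const _), integral_sub hg2 (hg1.const_mul (2 * m)),
        integral_const_mul, integral_const, probReal_univ, one_smul]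
    rw [q2, ← hm] at q1
    rw [← hm]
    nlinarith
  have hfin : ‖(H : ℂ) * ∫ z, f z ∂κ‖ ^ 2 ≤ ∫ z, G z ∂κ := by
    rw [hsum]
    have q1 : ‖∫ z, g z ∂κ‖ ≤ ∫ z, ‖g z‖ ∂κ := norm_integral_le_integral_norm _
    have q2 : ∫ z, ‖g z‖ ^ 2 ∂κ ≤ ∫ z, G z ∂κ := integral_mono hg2 hGr hgG
    have q3 := pow_le_pow_left₀ (norm_nonneg _) q1 2
    rw [hg] at q3 hcs q2
    exact q3.trans (hcs.trans q2)
  rw [hrhs]
  have hn : ‖((∫ z, G z ∂κ : ℝ) : ℂ)‖ = ∫ z, G z ∂κ := by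
    rw [Complex.norm_real, Real.norm_of_nonneg (integral_nonneg hG0)]
  rw [hn]
  rw [norm_mul, Complex.norm_natCast, mul_pow, mul_comm] at hfin
  rw [hf, hF] at hfin
  exact hfin

end Pool.Agent.Helper55.ZB
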