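import Pool.Agent.Helper98.ZB.Stmts

/-!
Sheet ZB (MP_7a8f48_an), row ZLP: the masses for large primes.
-/

open MeasureTheory Filter Topology Finset
open scoped ComplexConjugate

namespace Pool.Agent.Helper55.ZB

open Pool.Agent.Helper98.ZB
open Pool.Agent.Helper40.DZ (SK)
open Pool.Agent.Helper40.JZ (LM)

/-- ZLP: the masses for large primes. -/
theorem st_ZLP (hLMF : Pool.Agent.Helper40.JZ.ST_LMF) (hMCE : Pool.Agent.Helper40.TWM.ST_MCE) :
    ST_ZLP := by
  intro N hN
  refine ⟨?_, fun ε hε => ?_⟩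
  · have h := hMCE N hN 1 le_rfl
    simpa only [one_mul] using h
  · obtain ⟨-, h2, h3, -⟩ := hLMF N hN
    have hfin : {p : ℕ | p.Prime ∧ LM N 1 + ε < LM N p}.Finite := by
      by_contra hinf
      obtain ⟨K, hK⟩ := exists_nat_gt (N 0 0 / ε)
      obtain ⟨Q, hQ, hc⟩ := Set.Infinite.exists_subset_card_eq hinf K
      have h4 := h3 Q (fun q hq => (hQ hq).1.two_le) (fun q hq q' hq' hne =>
        (Nat.coprime_primes (hQ hq).1 (hQ hq').1).2 hne)
      have h5 : (K : ℝ) * ε ≤ ∑ q ∈ Q, (LM N q - LM N 1) := by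
        have h6 := Finset.card_nsmul_le_sum Q (fun q => LM N q - LM N 1) ε fun q hq => by
          have := (hQ hq).2
          linarith
        rwa [hc, nsmul_eq_mul] at h6
      rw [div_lt_iff₀ hε] at hK
      linarith
    obtain ⟨B, hB⟩ := hfin.bddAbove
    refine ⟨B + 1, fun p hp hpp => ?_⟩
    by_contra hcon
    push Not at hcon
    have := hB ⟨hpp, hcon⟩
    omega

end Pool.Agent.Helper55.ZB
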