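import Pool.Agent.Helper98.ZB.ZCB

/-!
Sheet ZB (MP_7a8f48_an), row ZTP: transport of the correlations.
-/

open MeasureTheory Filter Topology Finset
open scoped ComplexConjugate

namespace Pool.Agent.Helper55.ZB

open Pool.Agent.Helper98.TW (SA jo bo cm AM UF BF Sys Lm IA LQ Inc sg Grp)
open Pool.Agent.Helper98.ZB
open Pool.Agent.Helper16.AZ (E Op)
open Pool.Agent.Helper16.BZ (Wk EE)

section aux

variable {Ω : Type} {R R' : Ω → Ω} {d : ℕ} {φ : Ω → Op d} {c : Ω → E d}

theorem co_pow (m k : ℕ) (x : Ω) :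
    Pool.Agent.Helper16.BZ.co R^[m] (Pool.Agent.Helper16.BZ.co R φ m) k x =
      Pool.Agent.Helper16.BZ.co R φ (m * k) x := by
  induction k with
  | zero => rfl
  | succ k ih =>
    rw [Pool.Agent.Helper16.BZ.co_succ, ih, Nat.mul_succ, add_comm (m * k) m,
      Pool.Agent.Helper16.BZ.co_add, ← Function.iterate_mul]

theorem uni_l {u : Op d} (h : u ∈ unitary (Op d)) (v : E d) : star u (u v) = v := by
  have h1 := (Unitary.mem_iff.1 h).1
  have h2 := congrArg (fun w : Op d => w v) h1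
  exact h2

theorem uni_r {u : Op d} (h : u ∈ unitary (Op d)) (v : E d) : u (star u v) = v := by
  have h1 := (Unitary.mem_iff.1 h).2
  have h2 := congrArg (fun w : Op d => w v) h1
  exact h2

theorem uni_inner {u : Op d} (h : u ∈ unitary (Op d)) (v w : E d) :
    (inner ℂ (u v) (u w) : ℂ) = inner ℂ v w := by
  have h1 : (inner ℂ (u v) (u w) : ℂ) = inner ℂ v (star u (u w)) := by
    rw [ContinuousLinearMap.star_eq_adjoint, ContinuousLinearMap.adjoint_inner_right]
  rw [h1, uni_l h]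

/-- the transported section -/
theorem wk_ci (h : ∀ x, φ x ∈ unitary (Op d)) (m k i : ℕ) (x : Ω)
    (hx : R'^[i] (R^[i] (R^[m * k] x)) = R^[m * k] x) :
    Wk R^[m] (Pool.Agent.Helper16.BZ.co R φ m) k (ci R R' φ c i) (R^[i] x) =
      Pool.Agent.Helper16.BZ.co R φ i x (Wk R φ (m * k) c x) := by
  have e1 : (R^[m])^[k] (R^[i] x) = R^[i] (R^[m * k] x) := by
    rw [← Function.iterate_mul, ← Function.iterate_add_apply, ← Function.iterate_add_apply,
      add_comm]
  unfold Wk ci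
  rw [co_pow, e1, hx]
  -- the cocycle
  have e2 : Pool.Agent.Helper16.BZ.co R φ i (R^[m * k] x) *
      Pool.Agent.Helper16.BZ.co R φ (m * k) x =
      Pool.Agent.Helper16.BZ.co R φ (m * k) (R^[i] x) * Pool.Agent.Helper16.BZ.co R φ i x := by
    rw [← Pool.Agent.Helper16.BZ.co_add, ← Pool.Agent.Helper16.BZ.co_add, add_comm]
  have u1 := bco_uni (R := R) h (m * k) x
  have u2 := bco_uni (R := R) h (m * k) (R^[i] x)
  set A := Pool.Agent.Helper16.BZ.co R φ i (R^[m * k] x)
  set B := Pool.Agent.Helper16.BZ.co R φ (m * k) x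
  set C := Pool.Agent.Helper16.BZ.co R φ (m * k) (R^[i] x)
  set D := Pool.Agent.Helper16.BZ.co R φ i x
  have e3 : A (c (R^[m * k] x)) = C (D (star B (c (R^[m * k] x)))) := by
    have h1 := congrArg (fun w : Op d => w (star B (c (R^[m * k] x)))) e2
    have h2 : A (B (star B (c (R^[m * k] x)))) = C (D (star B (c (R^[m * k] x)))) := h1
    rwa [uni_r u1] at h2
  rw [e3, uni_l u2]

theorem ee_ci (h : ∀ x, φ x ∈ unitary (Op d)) (m k k' i : ℕ) (x : Ω)
    (hx : R'^[i] (R^[i] (R^[m * k] x)) = R^[m * k] x)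
    (hx' : R'^[i] (R^[i] (R^[m * k'] x)) = R^[m * k'] x) :
    EE R^[m] (Pool.Agent.Helper16.BZ.co R φ m) (ci R R' φ c i) k k' (R^[i] x) =
      EE R φ c (m * k) (m * k') x := by
  unfold EE
  rw [wk_ci h m k i x hx, wk_ci h m k' i x hx', uni_inner (bco_uni h i x)]

theorem wk_sm [MeasurableSpace Ω] {R : Ω → Ω} {φ : Ω → Op d} {c : Ω → E d} (hR : Measurable R)
    (h : StronglyMeasurable φ) (hc : StronglyMeasurable c) (k : ℕ) :
    StronglyMeasurable (Wk R φ k c) := by
  have h1 : StronglyMeasurable fun x => star (Pool.Agent.Helper16.BZ.co R φ k x) :=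
    (ContinuousLinearMap.adjoint : Op d ≃ₗᵢ⋆[ℂ] Op d).continuous.comp_stronglyMeasurable
      (bco_sm hR h k)
  have h2 := hc.comp_measurable (hR.iterate k)
  exact (isBoundedBilinearMap_apply (𝕜 := ℂ) (E := E d) (F := E d)).continuous.comp_stronglyMeasurable
    (h1.prodMk h2)

theorem ee_sm [MeasurableSpace Ω] {R : Ω → Ω} {φ : Ω → Op d} {c : Ω → E d} (hR : Measurable R)
    (h : StronglyMeasurable φ) (hc : StronglyMeasurable c) (k k' : ℕ) :
    StronglyMeasurable (EE R φ c k k') := by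
  unfold EE
  exact continuous_inner.comp_stronglyMeasurable ((wk_sm hR h hc k).prodMk (wk_sm hR h hc k'))

/-- the inverse of the iterates -/
theorem inv_iter [MeasurableSpace Ω] {μ : Measure Ω} (hs : Sys μ R R') (i : ℕ) :
    ∀ᵐ x ∂μ, R'^[i] (R^[i] x) = x := by
  induction i with
  | zero => exact Eventually.of_forall fun _ => rfl
  | succ i ih =>
    have h1 : ∀ᵐ x ∂μ, R' (R (R^[i] x)) = R^[i] x :=
      (hs.mp.iterate i).quasiMeasurePreserving.ae hs.l
    filter_upwards [ih, h1] with x h2 h3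
    rw [Function.iterate_succ_apply' R, Function.iterate_succ_apply R', h3, h2]

end aux

/-- ZTP: transport of the correlations. -/
theorem st_ZTP : ST_ZTP := by
  intro Ω _ μ _ R R' d φ c hs hφ hφu hc κ _ h1 h2 m i j h h' l l'
  have hR := hs.mp.measurable
  have hR' := hs.mp'.measurable
  have key : ∀ (i k : ℕ), ∀ᵐ x ∂μ, R'^[i] (R^[i] (R^[m * k] x)) = R^[m * k] x := fun i k =>
    (hs.mp.iterate (m * k)).quasiMeasurePreserving.ae (inv_iter hs i)
  have t1 : ∀ {P : Ω → Prop}, (∀ᵐ x ∂μ, P x) → ∀ᵐ z ∂κ, P z.1 := by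
    intro P hP
    exact ae_of_ae_map measurable_fst.aemeasurable (h1.ae_le hP)
  have t2 : ∀ {P : Ω → Prop}, (∀ᵐ x ∂μ, P x) → ∀ᵐ z ∂κ, P z.2 := by
    intro P hP
    exact ae_of_ae_map measurable_snd.aemeasurable (h2.ae_le hP)
  have hmap : Measurable (Prod.map R^[i] R^[j]) := (hR.iterate i).prodMap (hR.iterate j)
  have hco := bco_sm hR hφ m
  have hE : ∀ i k k' : ℕ, StronglyMeasurable
      (EE R^[m] (Pool.Agent.Helper16.BZ.co R φ m) (ci R R' φ c i) k k') := fun i k k' =>
    ee_sm (hR.iterate m) hco (ci_sm hR hR' hφ hc i) k k'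
  have hsm : StronglyMeasurable (fun w : Ω × Ω =>
      EE R^[m] (Pool.Agent.Helper16.BZ.co R φ m) (ci R R' φ c i) h h' w.1 *
      conj (EE R^[m] (Pool.Agent.Helper16.BZ.co R φ m) (ci R R' φ c j) l l' w.2)) := by
    have a1 := (hE i h h').comp_measurable (measurable_fst : Measurable (Prod.fst : Ω × Ω → Ω))
    have a2 := (hE j l l').comp_measurable (measurable_snd : Measurable (Prod.snd : Ω × Ω → Ω))
    exact a1.mul (Complex.continuous_conj.comp_stronglyMeasurable a2)
  rw [integral_map hmap.aemeasurable hsm.aestronglyMeasurable]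
  refine integral_congr_ae ?_
  filter_upwards [t1 (key i h), t1 (key i h'), t2 (key j l), t2 (key j l')] with z z1 z2 z3 z4
  show _ = EE R^[m] (Pool.Agent.Helper16.BZ.co R φ m) (ci R R' φ c i) h h' (R^[i] z.1) *
    conj (EE R^[m] (Pool.Agent.Helper16.BZ.co R φ m) (ci R R' φ c j) l l' (R^[j] z.2))
  rw [ee_ci hφu m h h' i z.1 z1 z2, ee_ci hφu m l l' j z.2 z3 z4]

end Pool.Agent.Helper55.ZB
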